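import Pool.Agent.W869.CC.Final

/-!
# Cut and choose: winning strategies of Choose can depend on the ideal

The positive answer to the question has three parts.

* A forcing notion over a measurable cardinal `κ` forces that `κ` is still measurable, that `κ⁺` is
  preserved, and that `κ⁺` has a nonreflecting stationary set of points of countable cofinality.
  The forcing language is the one of `Pool.Agent.Helper669.Forcing`: a sentence is the set of the
  conditions which force it; `HypothesisN P κ` is the literal translation of the proposition
  `Hypothesis κ` into the forcing language (quantifiers over subsets, relations and functions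
  become quantifiers over names).
* `Hypothesis κ` says that `κ` is measurable and `κ⁺` has such a stationary set.
* `Hypothesis κ` implies that there are `<κ`-closed proper ideals `I`, `J` on `κ` containing the
  bounded sets such that Choose has winning strategies in all games `U(κ, I, γ)`, `γ < κ`, but in
  none of the games `U(κ, J, γ)` with `ω₁ ≤ γ < κ`.
-/

set_option autoImplicit false

namespace Pool.Agent.Results.MP_66b893_lc.NonreflectingDependence

open Cardinal Pool.Agent.W869.CC

theorem result :
    -- over a measurable cardinal the hypothesis can be forced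
    (∀ κ : Cardinal.{0}, IsMeasurable κ → ∃ (P : Type) (_ : Preorder P),
      Nonempty P ∧ ∀ p : P, p ∈ HypothesisN P κ) ∧
    -- the meaning of the hypothesis
    (∀ κ : Cardinal.{0}, Hypothesis κ ↔
      IsMeasurable κ ∧ ∃ S : Set (Order.succ κ).ord.ToType, Nonreflecting S) ∧
    -- the hypothesis gives two ideals as in the question
    (∀ κ : Cardinal.{0}, Hypothesis κ →
      ∃ I J : Set (Set κ.ord.ToType), IsIdeal κ I ∧ IsIdeal κ J ∧
        (∀ γ < κ.ord, ChooseWins I γ) ∧
        ∀ γ : Ordinal.{0}, Ordinal.omega 1 ≤ γ → γ < κ.ord → ¬ ChooseWins J γ) := by
  refine ⟨fun κ hκ => forced hκ, hypothesis_iff, fun κ hκ => ?_⟩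
  obtain ⟨h1, S, hS⟩ := (hypothesis_iff κ).1 hκ
  obtain ⟨I, J, h1, h2, h3, h4⟩ := main h1 S hS
  exact ⟨I, J, h1, h2, h3, fun γ hγ _ => h4 γ hγ⟩

end Pool.Agent.Results.MP_66b893_lc.NonreflectingDependence
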